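import Mathlib

/-!
# A non-zero categorical product monoid which is finitely generated as a monoid

We construct a categorical product (in particular a categorical quasiproduct) monoid with more
than one element which is generated, as a monoid, by three elements.

The monoid consists of monotone operators on the set `Set ℕ` of all sets of natural numbers.  Sets
of natural numbers are paired by `Set ℕ × Set ℕ ≃ Set ℕ` (coming from `ℕ ⊕ ℕ ≃ ℕ`), and `Σ (a, b)`
is the operator `Z ↦ ⟨a Z, b Z⟩`.  Formal terms are built from the projections, an operator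
`⟨Y, Z⟩ ↦ ⟨Y + 1, Z⟩`, an operator `Z ↦ ⟨{0}, Z⟩` and a universal operator `u` by composition and
pairing; `u` is the least solution of `u ⟨Y, Z⟩ = ⋃ t (value of t at Z)`, the union over all terms
`t` whose code lies in `Y`.  Then each term with the code `n` has the value
`u ∘ (successor operator) ^ n ∘ (initial operator)`.
-/

namespace Pool.Agent.Results.MP_eefcda_al.FinitelyGeneratedCP

universe v

/-- A categorical quasiproduct structure `(M, Σ, π₁, π₂)` on a monoid `M`: a map
`S : M → M → M` (the map `Σ`) and elements `p1`, `p2` (the elements `π₁`, `π₂`) such that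
`π₁ Σ(a, b) = a`, `π₂ Σ(a, b) = b` and `Σ(a, b) c = Σ(a c, b c)`. -/
structure CQP (M : Type v) [Monoid M] where
  /-- the binary operation `Σ` -/
  S : M → M → M
  /-- the element `π₁` -/
  p1 : M
  /-- the element `π₂` -/
  p2 : M
  p1_S : ∀ a b : M, p1 * S a b = a
  p2_S : ∀ a b : M, p2 * S a b = b
  S_mul : ∀ a b c : M, S a b * c = S (a * c) (b * c)

/-- A categorical product structure: in addition `Σ(π₁, π₂) = 1`. -/
def CQP.IsCP {M : Type v} [Monoid M] (C : CQP M) : Prop := C.S C.p1 C.p2 = 1

/-! ### Pairing of sets -/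

/-- first component -/
def L (Z : Set ℕ) : Set ℕ := {n | Equiv.natSumNatEquivNat (Sum.inl n) ∈ Z}

/-- second component -/
def R (Z : Set ℕ) : Set ℕ := {n | Equiv.natSumNatEquivNat (Sum.inr n) ∈ Z}

/-- the pair of two sets -/
def P (Y Z : Set ℕ) : Set ℕ :=
  {k | (∃ n ∈ Y, Equiv.natSumNatEquivNat (Sum.inl n) = k) ∨
    ∃ n ∈ Z, Equiv.natSumNatEquivNat (Sum.inr n) = k}

theorem L_P (Y Z : Set ℕ) : L (P Y Z) = Y := by
  ext n
  simp only [L, P, Set.mem_ofPred_eq]
  constructor
  · rintro (⟨m, hm, h⟩ | ⟨m, hm, h⟩)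
    · have := Equiv.natSumNatEquivNat.injective h
      simp only [Sum.inl.injEq] at this
      rwa [← this]
    · have := Equiv.natSumNatEquivNat.injective h
      simp at this
  · intro h
    exact Or.inl ⟨n, h, rfl⟩

theorem R_P (Y Z : Set ℕ) : R (P Y Z) = Z := by
  ext n
  simp only [R, P, Set.mem_ofPred_eq]
  constructor
  · rintro (⟨m, hm, h⟩ | ⟨m, hm, h⟩)
    · have := Equiv.natSumNatEquivNat.injective h
      simp at this
    · have := Equiv.natSumNatEquivNat.injective h
      simp only [Sum.inr.injEq] at this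
      rwa [← this]
  · intro h
    exact Or.inr ⟨n, h, rfl⟩

theorem P_L_R (Z : Set ℕ) : P (L Z) (R Z) = Z := by
  ext k
  simp only [P, L, R, Set.mem_ofPred_eq]
  constructor
  · rintro (⟨m, hm, h⟩ | ⟨m, hm, h⟩)
    · rwa [← h]
    · rwa [← h]
  · intro h
    obtain ⟨s, hs⟩ := Equiv.natSumNatEquivNat.surjective k
    rcases s with n | n
    · left
      exact ⟨n, by rwa [hs], hs⟩
    · right
      exact ⟨n, by rwa [hs], hs⟩

theorem L_mono : Monotone L := fun _ _ h _ hn => h hn

theorem R_mono : Monotone R := fun _ _ h _ hn => h hn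

theorem P_mono {Y Y' Z Z' : Set ℕ} (h : Y ⊆ Y') (h' : Z ⊆ Z') : P Y Z ⊆ P Y' Z' := by
  rintro k (⟨n, hn, e⟩ | ⟨n, hn, e⟩)
  · exact Or.inl ⟨n, h hn, e⟩
  · exact Or.inr ⟨n, h' hn, e⟩

/-! ### Terms -/

/-- formal terms -/
inductive Tm : Type
  | one : Tm
  | uni : Tm
  | suc : Tm
  | ini : Tm
  | fst : Tm
  | snd : Tm
  | comp : Tm → Tm → Tm
  | pair : Tm → Tm → Tm

/-- codes of terms -/
def code : Tm → ℕ
  | Tm.one => 0
  | Tm.uni => 1
  | Tm.suc => 2
  | Tm.ini => 3
  | Tm.fst => 4
  | Tm.snd => 5
  | Tm.comp a b => 2 * Nat.pair (code a) (code b) + 6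
  | Tm.pair a b => 2 * Nat.pair (code a) (code b) + 7

theorem code_inj : ∀ s t : Tm, code s = code t → s = t := by
  intro s
  induction s with
  | one => intro t h; cases t <;> simp [code] at h ⊢
  | uni => intro t h; cases t <;> simp [code] at h ⊢
  | suc => intro t h; cases t <;> simp [code] at h ⊢
  | ini => intro t h; cases t <;> simp [code] at h ⊢
  | fst => intro t h; cases t <;> simp [code] at h ⊢
  | snd => intro t h; cases t <;> simp [code] at h ⊢
  | comp a b iha ihb =>
    intro t h
    cases t with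
    | comp c d =>
      simp only [code, Nat.add_right_cancel_iff] at h
      have h2 : Nat.pair (code a) (code b) = Nat.pair (code c) (code d) := by omega
      rw [Nat.pair_eq_pair] at h2
      rw [iha c h2.1, ihb d h2.2]
    | pair c d => simp only [code] at h; omega
    | _ => simp only [code] at h; omega
  | pair a b iha ihb =>
    intro t h
    cases t with
    | pair c d =>
      simp only [code, Nat.add_right_cancel_iff] at h
      have h2 : Nat.pair (code a) (code b) = Nat.pair (code c) (code d) := by omega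
      rw [Nat.pair_eq_pair] at h2
      rw [iha c h2.1, ihb d h2.2]
    | comp c d => simp only [code] at h; omega
    | _ => simp only [code] at h; omega

/-! ### Operators -/

/-- monotone operators on sets of natural numbers -/
abbrev Op : Type := Set ℕ →o Set ℕ

/-- first projection -/
def fstOp : Op := ⟨L, L_mono⟩

/-- second projection -/
def sndOp : Op := ⟨R, R_mono⟩

/-- the successor operator `⟨Y, Z⟩ ↦ ⟨Y + 1, Z⟩` -/
def sucOp : Op := ⟨fun Z => P (Nat.succ '' L Z) (R Z), fun _ _ h =>
  P_mono (Set.image_mono (L_mono h)) (R_mono h)⟩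

/-- the initial operator `Z ↦ ⟨{0}, Z⟩` -/
def iniOp : Op := ⟨fun Z => P {0} Z, fun _ _ h => P_mono (le_refl _) h⟩

/-- pairing of operators -/
def pairOp (a b : Op) : Op := ⟨fun Z => P (a Z) (b Z), fun _ _ h =>
  P_mono (a.monotone h) (b.monotone h)⟩

/-- the value of a term -/
def ev (u : Op) : Tm → Op
  | Tm.one => OrderHom.id
  | Tm.uni => u
  | Tm.suc => sucOp
  | Tm.ini => iniOp
  | Tm.fst => fstOp
  | Tm.snd => sndOp
  | Tm.comp a b => (ev u a).comp (ev u b)
  | Tm.pair a b => pairOp (ev u a) (ev u b)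

theorem ev_mono {u u' : Op} (h : u ≤ u') : ∀ (t : Tm) (Z : Set ℕ), ev u t Z ⊆ ev u' t Z := by
  intro t
  induction t with
  | uni => intro Z; exact h Z
  | comp a b iha ihb =>
    intro Z
    exact (iha _).trans ((ev u' a).monotone (ihb Z))
  | pair a b iha ihb => intro Z; exact P_mono (iha Z) (ihb Z)
  | _ => intro Z; exact le_refl _

/-- the union of the values of the terms with code in the first component -/
def stepFun (u : Op) (Z : Set ℕ) : Set ℕ := {x | ∃ t : Tm, code t ∈ L Z ∧ x ∈ ev u t (R Z)}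

/-- one step of the construction of the universal operator -/
def step : Op →o Op where
  toFun u := ⟨stepFun u, by
    rintro Z Z' h x ⟨t, ht, hx⟩
    exact ⟨t, L_mono h ht, (ev u t).monotone (R_mono h) hx⟩⟩
  monotone' := by
    rintro u u' h Z x ⟨t, ht, hx⟩
    exact ⟨t, ht, ev_mono h t _ hx⟩

/-- the universal operator -/
def U : Op := OrderHom.lfp step

theorem mem_U (Y Z : Set ℕ) (x : ℕ) : x ∈ U (P Y Z) ↔ ∃ t : Tm, code t ∈ Y ∧ x ∈ ev U t Z := by
  have h : step U = U := OrderHom.map_lfp step
  have h2 : step U (P Y Z) = U (P Y Z) := by rw [h]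
  rw [← h2]
  change (∃ t : Tm, code t ∈ L (P Y Z) ∧ x ∈ ev U t (R (P Y Z))) ↔ _
  rw [L_P, R_P]

theorem U_code (t : Tm) (Z : Set ℕ) : U (P {code t} Z) = ev U t Z := by
  ext x
  rw [mem_U]
  constructor
  · rintro ⟨s, hs, hx⟩
    rwa [← code_inj s t hs]
  · intro hx
    exact ⟨t, rfl, hx⟩

/-! ### The monoid -/

/-- the monoid of all self-maps of `Set ℕ` under composition -/
abbrev E : Type := Function.End (Set ℕ)

/-- an operator as a self-map -/
def toE (a : Op) : E := fun Z => a Z

/-- The monoid: the submonoid of the monoid of all self-maps of `Set ℕ` which is generated by the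
universal operator, the successor operator and the initial operator. -/
def Mon : Submonoid E := Submonoid.closure {toE U, toE sucOp, toE iniOp}

theorem toE_comp (a b : Op) : toE (a.comp b) = toE a * toE b := rfl

theorem pow_suc (n : ℕ) (Z : Set ℕ) : (toE sucOp ^ n * toE iniOp) Z = P {n} Z := by
  induction n with
  | zero => rfl
  | succ n ih =>
    rw [pow_succ', mul_assoc]
    change toE sucOp ((toE sucOp ^ n * toE iniOp) Z) = _
    rw [ih]
    change P (Nat.succ '' L (P {n} Z)) (R (P {n} Z)) = _
    rw [L_P, R_P, Set.image_singleton]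

theorem ev_eq (t : Tm) : toE (ev U t) = toE U * (toE sucOp ^ code t * toE iniOp) := by
  funext Z
  change ev U t Z = toE U ((toE sucOp ^ code t * toE iniOp) Z)
  rw [pow_suc]
  exact (U_code t Z).symm

theorem ev_mem (t : Tm) : toE (ev U t) ∈ Mon := by
  rw [ev_eq]
  have h1 : toE U ∈ Mon := Submonoid.subset_closure (by simp)
  have h2 : toE sucOp ∈ Mon := Submonoid.subset_closure (by simp)
  have h3 : toE iniOp ∈ Mon := Submonoid.subset_closure (by simp)
  exact Mon.mul_mem h1 (Mon.mul_mem (Mon.pow_mem h2 _) h3)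

theorem exists_term (a : E) (ha : a ∈ Mon) : ∃ t : Tm, a = toE (ev U t) := by
  induction ha using Submonoid.closure_induction with
  | mem x hx =>
    simp only [Set.mem_insert_iff, Set.mem_singleton_iff] at hx
    rcases hx with rfl | rfl | rfl
    · exact ⟨Tm.uni, rfl⟩
    · exact ⟨Tm.suc, rfl⟩
    · exact ⟨Tm.ini, rfl⟩
  | one => exact ⟨Tm.one, rfl⟩
  | mul x y _ _ ihx ihy =>
    obtain ⟨s, rfl⟩ := ihx
    obtain ⟨t, rfl⟩ := ihy
    exact ⟨Tm.comp s t, rfl⟩

/-- pairing of self-maps -/
def sig (a b : E) : E := fun Z => P (a Z) (b Z)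

theorem sig_mem (a b : E) (ha : a ∈ Mon) (hb : b ∈ Mon) : sig a b ∈ Mon := by
  obtain ⟨s, rfl⟩ := exists_term a ha
  obtain ⟨t, rfl⟩ := exists_term b hb
  exact ev_mem (Tm.pair s t)

/-- the categorical product structure -/
def cqp : CQP Mon where
  S a b := ⟨sig a b, sig_mem a b a.2 b.2⟩
  p1 := ⟨toE fstOp, ev_mem Tm.fst⟩
  p2 := ⟨toE sndOp, ev_mem Tm.snd⟩
  p1_S a b := by
    apply Subtype.ext
    funext Z
    exact L_P _ _
  p2_S a b := by
    apply Subtype.ext
    funext Z
    exact R_P _ _
  S_mul a b c := by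
    apply Subtype.ext
    rfl

/-- There is a categorical product monoid (so in particular a categorical quasiproduct monoid) with
at least two elements whose underlying monoid is finitely generated. -/
theorem result : ∃ (M : Type) (_ : Monoid M) (C : CQP M),
    C.IsCP ∧ Nontrivial M ∧ ∃ G : Set M, G.Finite ∧ Submonoid.closure G = ⊤ := by
  refine ⟨Mon, inferInstance, cqp, ?_, ?_, ?_⟩
  · apply Subtype.ext
    funext Z
    exact P_L_R Z
  · refine ⟨⟨(1 : Mon), cqp.p1, ?_⟩⟩
    intro h
    have h1 : P ∅ Set.univ = L (P ∅ Set.univ) :=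
      congrFun (congrArg (fun a : Mon => (a : E)) h) (P ∅ Set.univ)
    rw [L_P] at h1
    have h2 : R (P ∅ Set.univ) = Set.univ := R_P _ _
    rw [h1] at h2
    have h3 : (0 : ℕ) ∈ R ∅ := by rw [h2]; trivial
    exact h3
  · refine ⟨((↑) : Mon → E) ⁻¹' {toE U, toE sucOp, toE iniOp}, ?_, ?_⟩
    · exact Set.Finite.preimage Subtype.val_injective.injOn (by simp)
    · exact Submonoid.closure_closure_coe_preimage

end Pool.Agent.Results.MP_eefcda_al.FinitelyGeneratedCP
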